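import Pool.Agent.R355.Greedy

/-!
# Many disjoint sets of odd zeta values which are linearly independent over a number field

Let `F` be a real number field of degree at most `d` and let `V` be any `F`-vector space of real numbers, of
dimension at most `v` over `F` (for instance `V = F`, `v = 1`). If
`2^(132 d (v + S)) (b + 1)² (K S)³ log (K S + 1) ≤ s²`, there are `K` pairwise disjoint sets of `S` odd integers in the
window `(b, s]` such that the numbers `ζ(j)`, `j` in any one of these sets, are linearly independent over `F` modulo
`V`.

For `V = F`: the numbers `1` and `ζ(j)`, `j` in any one of the sets, are linearly independent over `F`. For `S = 1`: at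
least `c^d (s² / log s)^(1/3)` of the numbers `ζ(3), ζ(5), …, ζ(s)` do not lie in a given real number field of
degree `d` (`c > 0` absolute).

Proof. Let `W` be a rational space of real numbers of dimension `D` which contains `1`. By Dirichlet's theorem there are
arbitrarily large integers `q` such that all the `ζ(j)` in `W` are closer than `q^(-1/D)` to fractions with
denominator `q` (after multiplication by `q`). The theorem on simultaneous approximation of the starting files
(`Pool/Agent/Results/MP_c2395a_nt/OddZetaTwoThirds.lean`) says that many of the `ζ(j)` are not, so that many of them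
are outside of `W`. The sets are chosen greedily.
-/

set_option autoImplicit false

namespace Pool.Agent.Results.MP_c2395a_nt.DisjointIndependentSets

/-- **Disjoint linearly independent sets of odd zeta values.** Let `F` be a real number field of degree at most `d`, let
`V` be an `F`-vector space of real numbers of dimension at most `v`, let `K, S ≥ 1` and
`2^(132 d (v + S)) (b + 1)² (K S)³ log (K S + 1) ≤ s²`. Then there are `K` pairwise disjoint sets `J i` of `S` odd
integers `j` with `b < j ≤ s` such that, for every `i`, the classes of the numbers `ζ(j) = ∑ 1/(n+1)^j`, `j` in `J i`,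
in `ℝ / V` are linearly independent over `F`. -/
theorem result (b K s S d v : ℕ) (hK : 1 ≤ K) (hS : 1 ≤ S)
    (hs : (2 : ℝ) ^ (132 * (d * (v + S))) * ((b : ℝ) + 1) ^ 2 * ((K : ℝ) * S) ^ 3 * Real.log ((K : ℝ) * S + 1) ≤
      (s : ℝ) ^ 2)
    (F : IntermediateField ℚ ℝ) [FiniteDimensional ℚ F] (hF : Module.finrank ℚ F ≤ d)
    (V : Submodule F ℝ) [Module.Finite F V] (hV : Module.finrank F V ≤ v) :
    ∃ J : Fin K → Finset ℕ, (∀ i i', i ≠ i' → Disjoint (J i) (J i')) ∧ ∀ i, (J i).card = S ∧
      (∀ j ∈ J i, b < j ∧ j ≤ s ∧ Odd j) ∧
      LinearIndependent F (fun j : J i => V.mkQ (∑' n : ℕ, 1 / ((n : ℝ) + 1) ^ (j : ℕ))) :=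
  Pool.Agent.R355.disjoint_sets hK hS hs F hF V hV

end Pool.Agent.Results.MP_c2395a_nt.DisjointIndependentSets
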