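import Pool.Agent.R347.LF.Ex

/-!
# Odd zeta values over fields generated by number fields and Liouville numbers

Let `F` be a real number field and let `q_0, q_1, …` be an unbounded sequence of integers `≥ 2`. A real
number `x` is *approximable* if, for some `h` and every `κ`, for all large `k` there is an `a` in `F`, a zero
of a nonzero polynomial over `ℤ` with coefficients of absolute value at most `q_k ^ h`, with
`|x - a| ≤ q_k ^ (-κ)`. The approximable numbers form a field `L ⊇ F`. Every Liouville number `ξ` is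
approximable for some sequence, so that `F(ξ) ⊆ L`. For `q_k = 2 ^ ((k + 2)!)` the field `L` has transcendence
degree the cardinality of the continuum.

**Theorem.** Let the degree of `F` be at most `d`, let `V` be any `L`-vector space of real numbers of dimension
at most `v` over `L` (for instance `V = L`, `v = 1`). If
`2^(132 d (v + S)) (b + 1)² (K S)³ log (K S + 1) ≤ s²`, there are `K` pairwise disjoint sets of `S` odd integers in
the window `(b, s]` such that the numbers `ζ(j)`, `j` in any one of these sets, are linearly independent over `L`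
modulo `V`. The same is true with `L` replaced by any field of approximable numbers, for example by `F(ξ)` with
an arbitrary Liouville number `ξ`.

For `V = L`, `S = 1`: at least `c^d (s² / log s)^(1/3)` of the numbers `ζ(3), ζ(5), …, ζ(s)` do not lie in `L`;
here `c > 0` is absolute, and does not depend on the sequence `q`. For `V = L + L π + ⋯ + L π^m` the numbers are
linearly independent modulo the polynomials in `π` of degree at most `m` over `L`.

Proof. Let `W` be an `L`-vector space of real numbers of dimension `D` which contains `1`. For all large `k` the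
coordinates of all the `ζ(j)` in `W` have good approximations in `F`. With Dirichlet's theorem for the products of
the elements of a basis of `F` and one of `W`, with a bound which is a large power of `q_k`, one finds arbitrarily
large integers `Q` such that all the `Q ζ(j)` in question are closer than `Q^(-1/(dD))` to integers. The theorem on
simultaneous approximation of the starting files (`Pool/Agent/Results/MP_c2395a_nt/OddZetaTwoThirds.lean`) says
that many of the `Q ζ(j)` are not, so that many of the `ζ(j)` are outside of `W`. The sets are chosen greedily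
(`Pool/Agent/R355/Greedy.lean`).
-/

set_option autoImplicit false

namespace Pool.Agent.Results.MP_c2395a_nt.LiouvilleFields

/-- `a` is a zero of a nonzero polynomial over `ℤ` with coefficients of absolute value at most `N`. -/
def Bounded (N : ℕ) (a : ℝ) : Prop :=
  ∃ P : Polynomial ℤ, P ≠ 0 ∧ (∀ n, |P.coeff n| ≤ N) ∧ Polynomial.aeval a P = 0

/-- For some `h` and every `κ`, for all large `k` the number `x` has an approximation in `F` with naive height at
most `(q k) ^ h` and with an error of at most `(q k) ^ (-κ)`. -/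
def Approximable (q : ℕ → ℕ) (F : IntermediateField ℚ ℝ) (x : ℝ) : Prop :=
  ∃ h : ℕ, ∀ κ : ℕ, ∃ k₀ : ℕ, ∀ k ≥ k₀, ∃ a ∈ F, Bounded (q k ^ h) a ∧ |x - a| ≤ (((q k : ℕ) : ℝ) ^ κ)⁻¹

/-- The numbers `q k` are at least `2`, and they are not bounded. -/
def Scales (q : ℕ → ℕ) : Prop := (∀ k, 2 ≤ q k) ∧ ∀ N, ∃ k, N ≤ q k

/-- The value `ζ(j)`, for `j ≥ 2`. -/
noncomputable def zetaValue (j : ℕ) : ℝ := ∑' n : ℕ, 1 / ((n : ℝ) + 1) ^ j

/-- The condition `2^(132 D) (b + 1)² (K S)³ log (K S + 1) ≤ s²`. -/
def Condition (b K s S D : ℕ) : Prop :=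
  (2 : ℝ) ^ (132 * D) * ((b : ℝ) + 1) ^ 2 * ((K : ℝ) * S) ^ 3 * Real.log ((K : ℝ) * S + 1) ≤ (s : ℝ) ^ 2

/-- The classes of the numbers `ζ(j)`, `j` in `J`, in `ℝ / V` are linearly independent over `L`. -/
def Independent (L : IntermediateField ℚ ℝ) (V : Submodule L ℝ) (J : Finset ℕ) : Prop :=
  LinearIndependent L (fun j : J => V.mkQ (zetaValue j))

/-- There are `K` pairwise disjoint sets `J i` of `S` odd integers in `(b, s]` such that, for every `i`, the
numbers `ζ(j)`, `j` in `J i`, are linearly independent over `L` modulo `V`. -/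
def DisjointSets (L : IntermediateField ℚ ℝ) (V : Submodule L ℝ) (b K s S : ℕ) : Prop :=
  ∃ J : Fin K → Finset ℕ, (∀ i i', i ≠ i' → Disjoint (J i) (J i')) ∧ ∀ i, (J i).card = S ∧
    (∀ j ∈ J i, b < j ∧ j ≤ s ∧ Odd j) ∧ Independent L V (J i)

/-- For all `L`-vector spaces `V` of real numbers of dimension at most `v`, and all `K, S ≥ 1`, `b`, `s` with
`2^(132 d (v + S)) (b + 1)² (K S)³ log (K S + 1) ≤ s²`, there are such sets. -/
def ManyZetaValues (L : IntermediateField ℚ ℝ) (d : ℕ) : Prop :=
  ∀ b K s S v : ℕ, 1 ≤ K → 1 ≤ S → Condition b K s S (d * (v + S)) →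
    ∀ V : Submodule L ℝ, Module.Finite L V → Module.finrank L V ≤ v → DisjointSets L V b K s S

/-- The sequence `2 ^ ((k + 2)!)`. -/
def q₀ (k : ℕ) : ℕ := 2 ^ (k + 2).factorial

/-- **Main result.** -/
theorem result :
    -- the approximable numbers form a field which contains `F`
    (∀ q, Scales q → ∀ F : IntermediateField ℚ ℝ, FiniteDimensional ℚ F →
      ∃ L : IntermediateField ℚ ℝ, (∀ x, x ∈ L ↔ Approximable q F x) ∧ F ≤ L) ∧
    -- every Liouville number is approximable for some sequence
    (∀ ξ : ℝ, Liouville ξ → ∃ q, Scales q ∧ ∀ F, Approximable q F ξ) ∧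
    -- the transcendence degree for the explicit sequence
    (Scales q₀ ∧ ∀ F L : IntermediateField ℚ ℝ,
      (∀ x, x ∈ L ↔ Approximable q₀ F x) → Algebra.trdeg ℚ L = Cardinal.continuum) ∧
    -- odd zeta values over fields of approximable numbers
    (∀ q, Scales q → ∀ F L : IntermediateField ℚ ℝ, FiniteDimensional ℚ F →
      (∀ x ∈ L, Approximable q F x) → ∀ d, Module.finrank ℚ F ≤ d → ManyZetaValues L d) ∧
    -- in particular over `F(ξ)` for a Liouville number `ξ`
    (∀ ξ : ℝ, Liouville ξ → ∀ F : IntermediateField ℚ ℝ, FiniteDimensional ℚ F →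
      ∀ d, Module.finrank ℚ F ≤ d → ManyZetaValues (F ⊔ IntermediateField.adjoin ℚ {ξ}) d) := by
  have h4 : ∀ q, Scales q → ∀ F L : IntermediateField ℚ ℝ, FiniteDimensional ℚ F →
      (∀ x ∈ L, Approximable q F x) → ∀ d, Module.finrank ℚ F ≤ d → ManyZetaValues L d := by
    intro q hq F L hF hL d hd b K s S v hK hS hs V hV hVv
    exact Pool.Agent.R347.LF.disjoint_sets hq.1 hq.2 L hL hK hS hs hd V hVv
  refine ⟨fun q hq F hF => ⟨Pool.Agent.R347.LF.LL hq.1 F, fun x => Iff.rfl,
    Pool.Agent.R347.LF.le_LL hq.1⟩, fun ξ hξ => ?_,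
    ⟨⟨Pool.Agent.R347.LF.two_le_qL, Pool.Agent.R347.LF.qL_unb⟩, fun F L hL => ?_⟩, h4, ?_⟩
  · obtain ⟨q, hq, hunb, hap⟩ := Pool.Agent.R347.LF.liouville_ap hξ
    exact ⟨q, ⟨hq, hunb⟩, hap⟩
  · exact Pool.Agent.R347.LF.trdeg_eq L fun A => (hL _).2 (Pool.Agent.R347.LF.xiL_ap F A)
  · intro ξ hξ F hF d hd
    obtain ⟨q, hq, hunb, hap⟩ := Pool.Agent.R347.LF.liouville_ap hξ
    refine h4 q ⟨hq, hunb⟩ F _ hF ?_ d hd
    have hle : F ⊔ IntermediateField.adjoin ℚ {ξ} ≤ Pool.Agent.R347.LF.LL hq F := by
      refine sup_le (Pool.Agent.R347.LF.le_LL hq) ?_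
      rw [IntermediateField.adjoin_le_iff, Set.singleton_subset_iff]
      exact hap F
    exact fun x hx => hle hx

end Pool.Agent.Results.MP_c2395a_nt.LiouvilleFields
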