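import Pool.Agent.R355.NR2C
import Pool.Agent.Dim7.PD.Fin
import Pool.Agent.Dim7.PD.PU
import Pool.Agent.Dim7.PD.AR
import Pool.Agent.Dim7.PD.NV
import Pool.Agent.Dim7.PD.SV
import Pool.Agent.Dim7.PD.RH
import Pool.Agent.Dim7.PD.FX
import Pool.Agent.Y801.Z5S.Fin

/-!
# Near linear relations between `1, ζ(3), ζ(5), ζ(7)` and arbitrary numbers

`∑' n, 1 / (n + 1) ^ k` is `ζ(k)`. In all parts `t_1, …, t_r` are arbitrary real numbers (for instance powers of `π`, or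
products and powers of `ζ(3), ζ(5), ζ(7)`), and the constants do not depend on them.

(1) The integer vectors of norm at most `X` on which the linear form
`a_0 + a_1 ζ(3) + a_2 ζ(5) + a_3 ζ(7) + ∑ e_j t_j` is smaller than `c X ^ (-(2142 r + 2141))` span a space of dimension
at most `r + 1`, at every scale `X`. (For `r = 0`: at every scale `X` all the linear forms in `1, ζ(3), ζ(5), ζ(7)` of
height at most `X` which are smaller than `c X ^ (-2141)` are proportional.)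

(2) If `w > ρ (2142 r + 2141)`, `ρ > 1`, the integer vectors `v` with `H₀ ≤ ‖v‖ ≤ X` on which this linear form is at most
`‖v‖ ^ (-w)` are covered by `log log X / log ρ + 1` sets which span spaces of dimension at most `r + 1`. (For `r = 0`:
there are at most `log log X / log ρ + 1` pairwise non-proportional such `v`.)

(3), (4) The same for `a + b ζ(5) + ∑ e_j t_j`, with the exponents `83 r + 82` and the dimension `r`.

(5) The integer polynomials of degree at most `m + 1` and height at most `X` with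
`|P(ζ(5))| < c X ^ (-(83 (m + 1) - 1))` span a space of dimension at most `m`.

Proof. The intersection of two rational planes near the point `(ζ(3), ζ(5), ζ(7))` is a rational line near this point;
the distance of this point to rational lines is bounded from below in the starting file
`Pool/Agent/Results/MP_c2395a_nt/PlaneDistanceZeta7.lean`. The numbers `t_j` are eliminated by Siegel's lemma. (3) and
(5) use the starting file `ZetaFiveMeasureSharp.lean` in the same folder and follow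
`Pool/Agent/Results/MP_48b3e2_nt/SpanOfNearRelations.lean`, the corresponding result for `ζ(3)`. For (2) and (4) the
vectors `v` are distributed according to the integer part of `log log ‖v‖ / log ρ`.
-/

set_option autoImplicit false

namespace Pool.Agent.Results.MP_c2395a_nt.NearRelationsZeta357

open Pool.Agent.R355.NR2

/-- the distance of `(ζ(3), ζ(5), ζ(7))` to rational lines -/
theorem away : ∃ c : ℝ, 0 < c ∧ Away (∑' n : ℕ, 1 / ((n : ℝ) + 1) ^ 3) (∑' n : ℕ, 1 / ((n : ℝ) + 1) ^ 5)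
    (∑' n : ℕ, 1 / ((n : ℝ) + 1) ^ 7) c 1070 := by
  obtain ⟨c, hc, h⟩ := Pool.Agent.Dim7.PD.main_of Pool.Agent.Dim7.PD.P_unif
    (Pool.Agent.Dim7.PD.AR_of Pool.Agent.Dim7.PD.FN_in Pool.Agent.Dim7.PD.rho_le' Pool.Agent.Dim7.PD.BL_le'
      Pool.Agent.Dim7.PD.sv_add' Pool.Agent.Dim7.PD.sv_entry') Pool.Agent.Dim7.PD.nonv
  refine ⟨c, hc, fun q p1 p2 p3 b1 b2 b3 θ H hq hqH h1 h2 h3 => ?_⟩
  obtain ⟨i, hi, hle0⟩ := h q (fun n => if n = 3 then p1 else if n = 5 then p2 else p3)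
    (fun n => if n = 3 then b1 else if n = 5 then b2 else b3) θ H hq hqH (by
      intro i hi
      rcases (show i = 3 ∨ i = 5 ∨ i = 7 by
        simpa only [Finset.mem_insert, Finset.mem_singleton] using hi) with rfl | rfl | rfl
      · exact h1
      · exact h2
      · exact h3)
  have hle : c / H ^ 1070 ≤ |(∑' n : ℕ, 1 / ((n : ℝ) + 1) ^ i) -
      (((if i = 3 then p1 else if i = 5 then p2 else p3 : ℤ) : ℝ) +
        θ * ((if i = 3 then b1 else if i = 5 then b2 else b3 : ℤ) : ℝ)) / q| := hle0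
  rcases (show i = 3 ∨ i = 5 ∨ i = 7 by
    simpa only [Finset.mem_insert, Finset.mem_singleton] using hi) with rfl | rfl | rfl
  · exact Or.inl hle
  · exact Or.inr (Or.inl hle)
  · exact Or.inr (Or.inr hle)

/-- **Near linear relations between `1, ζ(3), ζ(5), ζ(7)` and arbitrary numbers.** -/
theorem result :
    (∀ r : ℕ, ∃ c : ℝ, 0 < c ∧ ∀ (t : Fin r → ℝ) (X : ℝ), 1 ≤ X →
      ∀ v : Fin (r + 2) → (Fin 4 → ℤ) × (Fin r → ℤ), LinearIndependent ℤ v →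
        (∀ k, ‖v k‖ ≤ X) →
        ∃ k, c * X ^ (-(2142 * (r : ℝ) + 2141)) ≤
          |((v k).1 0 : ℝ) + (v k).1 1 * (∑' n : ℕ, 1 / ((n : ℝ) + 1) ^ 3) +
            (v k).1 2 * (∑' n : ℕ, 1 / ((n : ℝ) + 1) ^ 5) +
            (v k).1 3 * (∑' n : ℕ, 1 / ((n : ℝ) + 1) ^ 7) + ∑ j, ((v k).2 j : ℝ) * t j|) ∧
    (∀ (r : ℕ) (ρ w : ℝ), 1 < ρ → ρ * (2142 * r + 2141) < w → ∃ H₀ : ℝ, ∀ (t : Fin r → ℝ) (X : ℝ), 3 ≤ X →
      ∃ (n : ℕ) (W : Fin n → Set ((Fin 4 → ℤ) × (Fin r → ℤ))),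
        (n : ℝ) ≤ Real.log (Real.log X) / Real.log ρ + 1 ∧
        (∀ i, ∀ u : Fin (r + 2) → (Fin 4 → ℤ) × (Fin r → ℤ), (∀ k, u k ∈ W i) → ¬ LinearIndependent ℤ u) ∧
        ∀ v : (Fin 4 → ℤ) × (Fin r → ℤ), H₀ ≤ ‖v‖ → ‖v‖ ≤ X →
          |(v.1 0 : ℝ) + v.1 1 * (∑' n : ℕ, 1 / ((n : ℝ) + 1) ^ 3) +
            v.1 2 * (∑' n : ℕ, 1 / ((n : ℝ) + 1) ^ 5) +
            v.1 3 * (∑' n : ℕ, 1 / ((n : ℝ) + 1) ^ 7) + ∑ j, (v.2 j : ℝ) * t j| ≤ ‖v‖ ^ (-w) →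
          ∃ i, v ∈ W i) ∧
    (∀ r : ℕ, ∃ c : ℝ, 0 < c ∧ ∀ (t : Fin r → ℝ) (X : ℝ), 1 ≤ X →
      ∀ v : Fin (r + 1) → (Fin 2 → ℤ) × (Fin r → ℤ), LinearIndependent ℤ v →
        (∀ k, ‖v k‖ ≤ X) →
        ∃ k, c * X ^ (-(83 * (r : ℝ) + 82)) ≤
          |((v k).1 0 : ℝ) + (v k).1 1 * (∑' n : ℕ, 1 / ((n : ℝ) + 1) ^ 5) +
            ∑ j, ((v k).2 j : ℝ) * t j|) ∧
    (∀ (r : ℕ) (ρ w : ℝ), 1 < ρ → ρ * (83 * r + 82) < w → ∃ H₀ : ℝ, ∀ (t : Fin r → ℝ) (X : ℝ), 3 ≤ X →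
      ∃ (n : ℕ) (W : Fin n → Set ((Fin 2 → ℤ) × (Fin r → ℤ))),
        (n : ℝ) ≤ Real.log (Real.log X) / Real.log ρ + 1 ∧
        (∀ i, ∀ u : Fin (r + 1) → (Fin 2 → ℤ) × (Fin r → ℤ), (∀ k, u k ∈ W i) → ¬ LinearIndependent ℤ u) ∧
        ∀ v : (Fin 2 → ℤ) × (Fin r → ℤ), H₀ ≤ ‖v‖ → ‖v‖ ≤ X →
          |(v.1 0 : ℝ) + v.1 1 * (∑' n : ℕ, 1 / ((n : ℝ) + 1) ^ 5) + ∑ j, (v.2 j : ℝ) * t j| ≤ ‖v‖ ^ (-w) →
          ∃ i, v ∈ W i) ∧
    (∀ m : ℕ, ∃ c : ℝ, 0 < c ∧ ∀ X : ℝ, 1 ≤ X →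
      ∀ P : Fin (m + 1) → Polynomial ℤ, LinearIndependent ℤ P → (∀ k, (P k).natDegree ≤ m + 1) →
        (∀ k i, |((P k).coeff i : ℝ)| ≤ X) →
        ∃ k, c * X ^ (-(83 * ((m : ℝ) + 1) - 1)) ≤
          |Polynomial.aeval (∑' n : ℕ, 1 / ((n : ℝ) + 1) ^ 5) (P k)|) := by
  obtain ⟨c, hc, h⟩ := away
  obtain ⟨c5, hc5, h5'⟩ := Pool.Agent.Y801.Z5S.measure83
  have h5 : ∀ (p : ℤ) (q : ℕ), 0 < q →
      c5 / (q : ℝ) ^ (83 : ℝ) ≤ |(∑' n : ℕ, 1 / ((n : ℝ) + 1) ^ 5) - (p : ℝ) / q| := by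
    intro p q hq
    have := h5' p q hq
    have e : (q : ℝ) ^ (83 : ℝ) = (q : ℝ) ^ (83 : ℕ) := by
      rw [← Real.rpow_natCast]
      norm_num
    rw [e]
    exact this
  have A1 : ∀ r : ℕ, ∃ c : ℝ, 0 < c ∧ ∀ (t : Fin r → ℝ) (X : ℝ), 1 ≤ X →
      ∀ v : Fin (r + 2) → (Fin 4 → ℤ) × (Fin r → ℤ), LinearIndependent ℤ v →
        (∀ k, ‖v k‖ ≤ X) →
        ∃ k, c * X ^ (-(2142 * (r : ℝ) + 2141)) ≤
          |((v k).1 0 : ℝ) + (v k).1 1 * (∑' n : ℕ, 1 / ((n : ℝ) + 1) ^ 3) +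
            (v k).1 2 * (∑' n : ℕ, 1 / ((n : ℝ) + 1) ^ 5) +
            (v k).1 3 * (∑' n : ℕ, 1 / ((n : ℝ) + 1) ^ 7) + ∑ j, ((v k).2 j : ℝ) * t j| := by
    intro r
    obtain ⟨c', hc', h'⟩ := near_four _ _ _ c 1070 h hc r
    refine ⟨c', hc', fun t X hX v hv hvX => ?_⟩
    obtain ⟨k, hk⟩ := h' t X hX v hv hvX
    refine ⟨k, le_trans (le_of_eq ?_) hk⟩
    congr 2
    push_cast
    ring
  have A3 : ∀ r : ℕ, ∃ c : ℝ, 0 < c ∧ ∀ (t : Fin r → ℝ) (X : ℝ), 1 ≤ X →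
      ∀ v : Fin (r + 1) → (Fin 2 → ℤ) × (Fin r → ℤ), LinearIndependent ℤ v →
        (∀ k, ‖v k‖ ≤ X) →
        ∃ k, c * X ^ (-(83 * (r : ℝ) + 82)) ≤
          |((v k).1 0 : ℝ) + (v k).1 1 * (∑' n : ℕ, 1 / ((n : ℝ) + 1) ^ 5) +
            ∑ j, ((v k).2 j : ℝ) * t j| := by
    intro r
    obtain ⟨c', hc', h'⟩ := near_one _ 83 (by norm_num) c5 hc5 h5 r
    refine ⟨c', hc', fun t X hX v hv hvX => ?_⟩
    obtain ⟨k, hk⟩ := h' t X hX v hv hvX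
    refine ⟨k, le_trans (le_of_eq ?_) hk⟩
    congr 2
    ring
  refine ⟨A1, fun r ρ w hρ hw => ?_, A3, fun r ρ w hρ hw => ?_, fun m => ?_⟩
  · obtain ⟨c', hc', h'⟩ := A1 r
    obtain ⟨H₀, hH⟩ := cover (M := (Fin 4 → ℤ) × (Fin r → ℤ)) (r + 1) c' (2142 * r + 2141) ρ w hc'
      (by positivity) hρ hw
    exact ⟨H₀, fun t X hX => hH (fun v => (v.1 0 : ℝ) + v.1 1 * (∑' n : ℕ, 1 / ((n : ℝ) + 1) ^ 3) +
      v.1 2 * (∑' n : ℕ, 1 / ((n : ℝ) + 1) ^ 5) +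
      v.1 3 * (∑' n : ℕ, 1 / ((n : ℝ) + 1) ^ 7) + ∑ j, (v.2 j : ℝ) * t j)
      (fun X hX v hv hvX => h' t X hX v hv hvX) X hX⟩
  · obtain ⟨c', hc', h'⟩ := A3 r
    obtain ⟨H₀, hH⟩ := cover (M := (Fin 2 → ℤ) × (Fin r → ℤ)) r c' (83 * r + 82) ρ w hc'
      (by positivity) hρ hw
    exact ⟨H₀, fun t X hX => hH (fun v => (v.1 0 : ℝ) + v.1 1 * (∑' n : ℕ, 1 / ((n : ℝ) + 1) ^ 5) +
      ∑ j, (v.2 j : ℝ) * t j)
      (fun X hX v hv hvX => h' t X hX v hv hvX) X hX⟩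
  · exact near_poly _ 83 (by norm_num) c5 hc5 h5 m

end Pool.Agent.Results.MP_c2395a_nt.NearRelationsZeta357
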