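import Pool.Agent.R355.QRank

/-!
# The rank of the near relations between odd zeta values in a window and arbitrary numbers

Let `K ≥ 1`, `2 ^ (132 (d + 1)) (b + 1)² K³ log (K + 1) ≤ s²` (for `K = 1` and fixed `b` one may take `d` of the size
`log s / (66 log 2)`), and let `E` be a set which contains all but at most `K - 1` of the odd integers `j` with
`b < j ≤ s`. Let `t_1, …, t_r` be arbitrary real numbers, for instance powers of `π`, the remaining zeta values, or
products of zeta values. Write `N = 1 + |E| + r` for the number of the numbers `1`, `ζ(j)` (`j ∈ E`), `t_i`, and `m = N - d`.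

(1) At every scale `X ≥ 1` the integer vectors of norm at most `X` at which the linear form
`a + ∑_{j ∈ E} a_j ζ(j) + ∑ e_i t_i` is smaller than `c X ^ (-m (d + 1) (d + 2))` span a space of dimension at most
`m - 1 = N - (d + 1)`. The constant `c > 0` does not depend on the `t_i` and on `X`.

(2) If `w > ρ m (d + 1) (d + 2)`, `ρ > 1`, then for every `X ≥ 3` the integer vectors `v` with `H₀ ≤ ‖v‖ ≤ X` at which the
linear form is at most `‖v‖ ^ (-w)` are contained in `log log X / log ρ + 1` sets which span spaces of dimension at most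
`N - (d + 1)`.

This is a quantitative form, uniform in the `t_i`, of a theorem of the type of Ball and Rivoal: `1` and the `ζ(j)`,
`j ∈ E`, span a rational space of dimension at least `d + 1`.

Proof. If `m` linearly independent forms are very small, Cramer's rule expresses `m` of the `N` numbers, approximately
and with a common denominator, by the remaining `d` numbers. Dirichlet's theorem for these `d` numbers gives integers `q`
for which all the `q ζ(j)`, `j ∈ E`, are closer to integers than `q ^ (-1 / (d + 1))`, which contradicts the theorem on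
simultaneous approximation of the starting file `Pool/Agent/Results/MP_c2395a_nt/OddZetaTwoThirds.lean`.
-/

set_option autoImplicit false

namespace Pool.Agent.Results.MP_c2395a_nt.RankOfNearRelationsWindows

open Pool.Agent.R355.QR

/-- The value of the linear form with the integral coefficients `v` at `1`, `ζ(j)` (`j ∈ E`), `t_1, …, t_r`. -/
noncomputable def form (E : Finset ℕ) {r : ℕ} (t : Fin r → ℝ) (v : ℤ × (E → ℤ) × (Fin r → ℤ)) : ℝ :=
  v.1 + ∑ j : E, (v.2.1 j : ℝ) * (∑' n : ℕ, 1 / ((n : ℝ) + 1) ^ (j : ℕ)) + ∑ i, (v.2.2 i : ℝ) * t i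

/-- the coordinates of a vector -/
def coords (E : Finset ℕ) (r : ℕ) : (ℤ × (E → ℤ) × (Fin r → ℤ)) →ₗ[ℤ] (Unit ⊕ (E ⊕ Fin r) → ℤ) where
  toFun v := Sum.elim (fun _ => v.1) (Sum.elim v.2.1 v.2.2)
  map_add' u v := by
    funext i
    rcases i with i | i | i <;> rfl
  map_smul' c v := by
    funext i
    rcases i with i | i | i <;> rfl

lemma coords_inj (E : Finset ℕ) (r : ℕ) : LinearMap.ker (coords E r) = ⊥ := by
  rw [LinearMap.ker_eq_bot]
  intro u v h
  have h1 := congrFun h (Sum.inl ())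
  have h2 : ∀ j, u.2.1 j = v.2.1 j := fun j => congrFun h (Sum.inr (Sum.inl j))
  have h3 : ∀ j, u.2.2 j = v.2.2 j := fun j => congrFun h (Sum.inr (Sum.inr j))
  exact Prod.ext h1 (Prod.ext (funext h2) (funext h3))

/-- **The rank of the near relations between odd zeta values in a window and arbitrary numbers.** -/
theorem result (b K s d r m : ℕ) (hK : 1 ≤ K)
    (hs : (2 : ℝ) ^ (132 * (d + 1)) * ((b : ℝ) + 1) ^ 2 * (K : ℝ) ^ 3 * Real.log (K + 1) ≤ (s : ℝ) ^ 2)
    (E : Finset ℕ) (hE : ∀ j ∈ E, b < j ∧ j ≤ s ∧ Odd j)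
    (hEK : ((Finset.Ioc b s).filter Odd).card < E.card + K) (hm : 1 + E.card + r = m + d) :
    (∃ c : ℝ, 0 < c ∧ ∀ (t : Fin r → ℝ) (X : ℝ), 1 ≤ X →
      ∀ v : Fin m → ℤ × (E → ℤ) × (Fin r → ℤ), LinearIndependent ℤ v → (∀ k, ‖v k‖ ≤ X) →
        ∃ k, c / X ^ (m * (d + 1) * (d + 2)) ≤ |form E t (v k)|) ∧
    (∀ ρ w : ℝ, 1 < ρ → ρ * (m * (d + 1) * (d + 2)) < w → ∃ H₀ : ℝ, ∀ (t : Fin r → ℝ) (X : ℝ), 3 ≤ X →
      ∃ (n : ℕ) (W : Fin n → Set (ℤ × (E → ℤ) × (Fin r → ℤ))),
        (n : ℝ) ≤ Real.log (Real.log X) / Real.log ρ + 1 ∧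
        (∀ i, ∀ u : Fin m → ℤ × (E → ℤ) × (Fin r → ℤ), (∀ k, u k ∈ W i) → ¬ LinearIndependent ℤ u) ∧
        ∀ v : ℤ × (E → ℤ) × (Fin r → ℤ), H₀ ≤ ‖v‖ → ‖v‖ ≤ X → |form E t v| ≤ ‖v‖ ^ (-w) →
          ∃ i, v ∈ W i) := by
  classical
  have part1 : ∃ c : ℝ, 0 < c ∧ ∀ (t : Fin r → ℝ) (X : ℝ), 1 ≤ X →
      ∀ v : Fin m → ℤ × (E → ℤ) × (Fin r → ℤ), LinearIndependent ℤ v → (∀ k, ‖v k‖ ≤ X) →
        ∃ k, c / X ^ (m * (d + 1) * (d + 2)) ≤ |form E t (v k)| := by
    have hcard : Fintype.card (Unit ⊕ (E ⊕ Fin r)) = m + d := by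
      rw [Fintype.card_sum, Fintype.card_sum, Fintype.card_unit, Fintype.card_coe, Fintype.card_fin]
      omega
    obtain ⟨c, hc, h⟩ := core (ι := Unit ⊕ (E ⊕ Fin r)) hK hs E hE hEK hcard
      (fun j => Sum.inr (Sum.inl j))
    refine ⟨c, hc, fun t X hX v hv hvX => ?_⟩
    obtain ⟨y, hy⟩ : ∃ y : Unit ⊕ (E ⊕ Fin r) → ℝ, y = Sum.elim (fun _ => 1)
      (Sum.elim (fun j : E => ∑' n : ℕ, 1 / ((n : ℝ) + 1) ^ (j : ℕ)) t) := ⟨_, rfl⟩
    have hcast : ∀ n : ℤ, ‖n‖ = |(n : ℝ)| := fun n => rfl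
    obtain ⟨k, hk⟩ := h y (fun j => by rw [hy]; rfl) X hX (fun k => coords E r (v k))
      (hv.map' (coords E r) (coords_inj E r)) (by
        intro k i
        have h1 := hvX k
        rw [Prod.norm_def, max_le_iff, Prod.norm_def, max_le_iff] at h1
        obtain ⟨h1, h2, h3⟩ := h1
        rcases i with i | i | i
        · exact h1
        · exact (norm_le_pi_norm (v k).2.1 i).trans h2
        · exact (norm_le_pi_norm (v k).2.2 i).trans h3)
    refine ⟨k, ?_⟩
    have e : ∑ i, (coords E r (v k) i : ℝ) * y i = form E t (v k) := by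
      rw [Fintype.sum_sum_type, Fintype.sum_sum_type, hy]
      unfold form
      simp [coords]
      ring
    rw [e] at hk
    exact hk
  refine ⟨part1, fun ρ w hρ hw => ?_⟩
  obtain ⟨c, hc, h⟩ := part1
  rcases m with _ | D
  · obtain ⟨k, -⟩ := h (fun _ => 0) 1 le_rfl (fun k => k.elim0) (linearIndependent_empty_type) (fun k => k.elim0)
    exact k.elim0
  · obtain ⟨H₀, hH⟩ := Pool.Agent.R355.NR2.cover (M := ℤ × (E → ℤ) × (Fin r → ℤ)) D c
      (((D + 1 : ℕ) : ℝ) * (d + 1) * (d + 2)) ρ w hc (by positivity) hρ hw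
    refine ⟨H₀, fun t X hX => hH (form E t) (fun X hX v hv hvX => ?_) X hX⟩
    obtain ⟨k, hk⟩ := h t X hX v hv hvX
    refine ⟨k, le_trans (le_of_eq ?_) hk⟩
    have hX0 : 0 < X := by linarith
    rw [Real.rpow_neg hX0.le, div_eq_mul_inv]
    congr 2
    rw [← Real.rpow_natCast]
    congr 1
    push_cast
    ring

end Pool.Agent.Results.MP_c2395a_nt.RankOfNearRelationsWindows
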